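import Mathlib
import Pool.Agent.H52Z.RecDefs
import Pool.Agent.H52Z.RecDefs3
import Pool.Agent.H52Z.IP6

set_option autoImplicit false

namespace Pool.Agent.Results.MP_145b75_an.AAURecNotIP

open Pool.Agent.H52Z.Rec

/-- There is a bounded operator on a separable complex Banach space whose uniformly recurrent
vectors are dense while its `IP*`-recurrent vectors are not dense. -/
theorem result :
    ∃ (X : Type) (_ : NormedAddCommGroup X) (_ : NormedSpace ℂ X) (_ : CompleteSpace X)
      (T : X →L[ℂ] X),
      TopologicalSpace.SeparableSpace X ∧ Dense (URec T) ∧ ¬ Dense (IPRec T) :=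
  ⟨Pool.Agent.H52Z.IP.X Pool.Agent.H52Z.IP.α0, inferInstance, inferInstance, inferInstance,
    Pool.Agent.H52Z.IP.TT _, Pool.Agent.H52Z.IP.X_separable _, Pool.Agent.H52Z.IP.dense_URec _,
    Pool.Agent.H52Z.IP.not_dense_IPRec _⟩

end Pool.Agent.Results.MP_145b75_an.AAURecNotIP
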