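import Mathlib
import Pool.Agent.H52Z.RecDefs
import Pool.Agent.H52Z.Rec5

set_option autoImplicit false

namespace Pool.Agent.Results.MP_145b75_an.AURecNotDelta

open Pool.Agent.H52Z.Rec

/-- There is a bounded operator on a separable reflexive complex Banach space whose uniformly
recurrent vectors are dense while its `Δ*`-recurrent vectors are not dense. -/
theorem result :
    ∃ (X : Type) (_ : NormedAddCommGroup X) (_ : NormedSpace ℂ X) (_ : CompleteSpace X)
      (T : X →L[ℂ] X),
      TopologicalSpace.SeparableSpace X ∧
      Function.Surjective (NormedSpace.inclusionInDoubleDual ℂ X) ∧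
      Dense (URec T) ∧ ¬ Dense (DRec T) :=
  ⟨XX, inferInstance, inferInstance, inferInstance, TT, XX_separable, XX_reflexive, dense_URec,
    not_dense_DRec⟩

end Pool.Agent.Results.MP_145b75_an.AURecNotDelta
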